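import Pool.Agent.E8helper55.UN.Block10

/-!
# Large subspaces in ten-fold sumsets of block-symmetric sets

Let `A ⊆ F_2^n` be a set of density `α`. If the coordinates, with respect to some basis and some
origin, can be divided into `k` blocks such that the membership in `A` depends only on the `k` numbers
of ones in these blocks, then `10 A` contains a subspace of codimension at most
`k + (k log 3 + log (1/α)) / log (19/10)`, that is about `2.72 k + 1.08 log_2 (1/α)`. So the bound of
Q1 holds for the sets with at most `C log_2 (1/α)` blocks, for instance for the sets which are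
invariant under all permutations of the coordinates.

Proof: let `n_i` be the size of the block `i`, `w_i(u)` the weight of `u` in this block and
`m_i(u) = min (w_i(u), n_i - w_i(u))`. Every vector with even weights at most `10 m_i(u)` in all
blocks is the sum of ten vectors with the weights `w_i(u)`. These vectors contain a subspace of
codimension at most `k + ∑ max (0, n_i - 10 m_i(u))`, and an exponential moment shows that `A` has a
point `u` for which this sum is at most `(k log 3 + log (1/α)) / log (19/10)`.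
-/

set_option autoImplicit false

namespace Pool.Agent.Results.MP_9c415a_co.BlockSymmetricH55

open Finset Module

/-- `F_2^n` -/
abbrev V (n : ℕ) := Fin n → ZMod 2

/-- the number of the ones of `x` in the block `i`, where `β` gives the block of each coordinate -/
def blockWeight {n k : ℕ} (β : Fin n → Fin k) (x : V n) (i : Fin k) : ℕ :=
  (univ.filter (fun j => β j = i ∧ x j = 1)).card

/-- For some division `β` of the coordinates into `k` blocks, some basis of the dual space (the
coordinates of `T x`) and some origin, the membership of `x` in `A` depends only on the numbers of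
ones of `T x + s` in the `k` blocks. -/
def BlockSymmetric {n : ℕ} (k : ℕ) (A : Finset (V n)) : Prop :=
  ∃ (β : Fin n → Fin k) (T : V n ≃ₗ[ZMod 2] V n) (s : V n),
    ∀ x ∈ A, ∀ y, (∀ i, blockWeight β (T y + s) i = blockWeight β (T x + s) i) → y ∈ A

/-- the set `r A` of the sums of `r` elements of `A` -/
def foldSum {n : ℕ} (r : ℕ) (A : Finset (V n)) : Set (V n) :=
  {x | ∃ a : Fin r → V n, (∀ i, a i ∈ A) ∧ ∑ i, a i = x}

open Pool.Agent.E8helper55.UN

/-- the weights used in the exponential moment -/
noncomputable def g (e : Fin 3) (a : ZMod 2) : ℝ :=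
  if e = 0 then (if a = 1 then 1 else 1) else
    if e = 1 then (if a = 1 then (((19 : ℝ) / 10) ^ 9)⁻¹ else 19 / 10) else
      (if a = 1 then 19 / 10 else (((19 : ℝ) / 10) ^ 9)⁻¹)

lemma g_pos (e : Fin 3) (a : ZMod 2) : 0 < g e a := by
  unfold g
  split_ifs <;> positivity

lemma g_sum (e : Fin 3) : ∑ a : ZMod 2, g e a ≤ 2 := by
  have hu : (univ : Finset (ZMod 2)) = {0, 1} := by decide
  rw [hu, sum_pair (by decide)]
  unfold g
  rw [if_neg (by decide : ¬ (0 : ZMod 2) = 1), if_neg (by decide : ¬ (0 : ZMod 2) = 1),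
    if_neg (by decide : ¬ (0 : ZMod 2) = 1), if_pos rfl, if_pos rfl, if_pos rfl]
  split_ifs <;> norm_num

/-- `max (0, n_i - 10 m_i)` -/
def cv {n k : ℕ} (β : Fin n → Fin k) (x : V n) (i : Fin k) : ℕ :=
  (blk β i).card - min (blk β i).card (10 * mu β x i)

lemma prod_blk {n k : ℕ} (β : Fin n → Fin k) (x : V n) (i : Fin k) (a b : ℝ) :
    ∏ j ∈ blk β i, (if x j = 1 then a else b) =
      a ^ (bw β x i) * b ^ ((blk β i).card - bw β x i) := by
  classical
  have h1 : ((blk β i).filter (fun j => x j = 1)).card = bw β x i := by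
    unfold bw blk
    rw [filter_filter]
  have h2 : ((blk β i).filter (fun j => ¬ x j = 1)).card = (blk β i).card - bw β x i := by
    have := card_filter_add_card_filter_not (s := blk β i) (fun j => x j = 1)
    omega
  rw [prod_ite, prod_const, prod_const, h1, h2]

lemma pow_help (t : ℝ) (ht : 0 < t) (w N : ℕ) (h : 10 * w ≤ N) :
    t ^ (N - 10 * w) = (t ^ 9)⁻¹ ^ w * t ^ (N - w) := by
  have h1 : N - w = (N - 10 * w) + 9 * w := by omega
  rw [h1, pow_add, pow_mul t 9 w, inv_pow]
  have h2 : (t ^ 9) ^ w ≠ 0 := by positivity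
  field_simp

lemma one_block {n k : ℕ} (β : Fin n → Fin k) (x : V n) (i : Fin k) :
    ∃ e : Fin 3, ((19 : ℝ) / 10) ^ (cv β x i) = ∏ j ∈ blk β i, g e (x j) := by
  have hw := bw_le β x i
  by_cases h : (blk β i).card ≤ 10 * mu β x i
  · refine ⟨0, ?_⟩
    have h1 : cv β x i = 0 := by
      unfold cv
      rw [min_eq_left h]
      omega
    rw [h1, pow_zero]
    symm
    refine prod_eq_one fun j _ => ?_
    unfold g
    rw [if_pos rfl]
    split_ifs <;> rfl
  · have h' : 10 * mu β x i ≤ (blk β i).card := by omega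
    rcases le_total (bw β x i) ((blk β i).card - bw β x i) with h2 | h2
    · refine ⟨1, ?_⟩
      have h3 : mu β x i = bw β x i := min_eq_left h2
      have h4 : cv β x i = (blk β i).card - 10 * bw β x i := by
        unfold cv
        rw [min_eq_right h', h3]
      have h5 : ∀ j ∈ blk β i, g 1 (x j) =
          if x j = 1 then (((19 : ℝ) / 10) ^ 9)⁻¹ else 19 / 10 := by
        intro j _
        unfold g
        rw [if_neg (by decide), if_pos rfl]
      rw [prod_congr rfl h5, prod_blk, h4]
      exact pow_help _ (by norm_num) _ _ (by omega)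
    · refine ⟨2, ?_⟩
      have h3 : mu β x i = (blk β i).card - bw β x i := min_eq_right h2
      have h4 : cv β x i = (blk β i).card - 10 * ((blk β i).card - bw β x i) := by
        unfold cv
        rw [min_eq_right h', h3]
      have h5 : ∀ j ∈ blk β i, g 2 (x j) =
          if x j = 1 then (19 / 10 : ℝ) else (((19 : ℝ) / 10) ^ 9)⁻¹ := by
        intro j _
        unfold g
        rw [if_neg (by decide), if_neg (by decide)]
      rw [prod_congr rfl h5, prod_blk, h4]
      have h6 := pow_help ((19 : ℝ) / 10) (by norm_num) ((blk β i).card - bw β x i)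
        (blk β i).card (by omega)
      have h7 : (blk β i).card - ((blk β i).card - bw β x i) = bw β x i := by omega
      rw [h7] at h6
      rw [h6, mul_comm]

lemma all_blocks {n k : ℕ} (β : Fin n → Fin k) (x : V n) :
    ∃ ε : Fin k → Fin 3, ((19 : ℝ) / 10) ^ (∑ i, cv β x i) = ∏ j, g (ε (β j)) (x j) := by
  classical
  choose ε hε using one_block β x
  refine ⟨ε, ?_⟩
  rw [← prod_pow_eq_pow_sum, prod_congr rfl (fun i _ => hε i),
    ← prod_fiberwise univ β (fun j => g (ε (β j)) (x j))]
  refine prod_congr rfl fun i _ => ?_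
  refine prod_congr rfl fun j hj => ?_
  have h3 : β j = i := (mem_filter.1 hj).2
  rw [h3]

lemma moment {n k : ℕ} (β : Fin n → Fin k) :
    ∑ x : V n, ((19 : ℝ) / 10) ^ (∑ i, cv β x i) ≤ 3 ^ k * 2 ^ n := by
  classical
  have h1 : ∀ x : V n, ((19 : ℝ) / 10) ^ (∑ i, cv β x i) ≤
      ∑ ε : Fin k → Fin 3, ∏ j, g (ε (β j)) (x j) := by
    intro x
    obtain ⟨ε, hε⟩ := all_blocks β x
    rw [hε]
    exact single_le_sum (f := fun ε : Fin k → Fin 3 => ∏ j, g (ε (β j)) (x j))
      (fun ε _ => prod_nonneg fun j _ => (g_pos _ _).le) (mem_univ ε)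
  refine (sum_le_sum fun x _ => h1 x).trans ?_
  rw [sum_comm]
  have h3 : ∀ ε : Fin k → Fin 3, ∑ x : V n, ∏ j, g (ε (β j)) (x j) ≤ 2 ^ n := by
    intro ε
    have h4 : ∑ x : V n, ∏ j, g (ε (β j)) (x j) =
        ∏ j : Fin n, ∑ a : ZMod 2, g (ε (β j)) a := by
      rw [Finset.prod_univ_sum, Fintype.piFinset_univ]
    rw [h4]
    refine (prod_le_prod (fun j _ => sum_nonneg fun a _ => (g_pos _ _).le)
      (fun j _ => g_sum (ε (β j)))).trans (le_of_eq ?_)
    rw [prod_const, card_univ, Fintype.card_fin]
  refine (sum_le_sum fun ε _ => h3 ε).trans (le_of_eq ?_)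
  rw [sum_const, card_univ, Fintype.card_fun, Fintype.card_fin, Fintype.card_fin, nsmul_eq_mul]
  push_cast
  ring

lemma list_to_fin {n : ℕ} (r : ℕ) (l : List (V n)) (hl : l.length = r) :
    ∃ a : Fin r → V n, (∀ i, a i ∈ l) ∧ ∑ i, a i = l.sum := by
  subst hl
  refine ⟨fun i => l.get i, fun i => l.get_mem i, ?_⟩
  simp

/-- Let `A ⊆ F_2^n` be nonempty, and let the membership in `A` depend only on the numbers of ones in
`k` blocks of coordinates, with respect to some basis and some origin. Then `10 A` contains a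
subspace of codimension at most `k + (k log 3 + log (2^n / |A|)) / log (19/10)`. -/
theorem result {n k : ℕ} (A : Finset (V n)) (hA : A.Nonempty) (hS : BlockSymmetric k A) :
    ∃ W : Submodule (ZMod 2) (V n),
      (n : ℝ) - (k + (k * Real.log 3 + Real.log (2 ^ n / #A)) / Real.log (19 / 10)) ≤
        finrank (ZMod 2) W ∧ ∀ w ∈ W, w ∈ foldSum 10 A := by
  classical
  obtain ⟨β, T, s, hT⟩ := hS
  have hinj : Function.Injective (fun x : V n => T x + s) := fun x y hxy =>
    T.injective (add_right_cancel hxy)
  set B : Finset (V n) := A.image (fun x => T x + s) with hB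
  have hBc : #B = #A := card_image_of_injective _ hinj
  have hBne : B.Nonempty := hA.image _
  have hBp : (0 : ℝ) < #B := by exact_mod_cast card_pos.2 hBne
  have hBs : ∀ u ∈ B, ∀ v : V n, (∀ i, bw β v i = bw β u i) → v ∈ B := by
    intro u hu v hv
    obtain ⟨x, hx, rfl⟩ := mem_image.1 hu
    rw [hB, mem_image]
    have h1 : T (T.symm (v + s)) + s = v := by
      rw [LinearEquiv.apply_symm_apply, add_assoc, vadd_self, add_zero]
    refine ⟨T.symm (v + s), hT x hx _ (fun i => ?_), h1⟩
    rw [h1]
    exact hv i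
  obtain ⟨u, hu, hmin⟩ := exists_min_image B (fun x => ∑ i, cv β x i) hBne
  set m0 : ℕ := ∑ i, cv β u i with hm0
  have hlog : 0 < Real.log (19 / 10) := Real.log_pos (by norm_num)
  have h1 : (#B : ℝ) * (19 / 10) ^ m0 ≤ 3 ^ k * 2 ^ n := by
    refine le_trans ?_ (moment β)
    calc (#B : ℝ) * (19 / 10) ^ m0 = ∑ _x ∈ B, ((19 : ℝ) / 10) ^ m0 := by
          rw [sum_const, nsmul_eq_mul]
      _ ≤ ∑ x ∈ B, ((19 : ℝ) / 10) ^ (∑ i, cv β x i) :=
          sum_le_sum fun x hx => pow_le_pow_right₀ (by norm_num) (hmin x hx)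
      _ ≤ _ := sum_le_sum_of_subset_of_nonneg (subset_univ _) (fun x _ _ => by positivity)
  have h2 := Real.log_le_log (by positivity) h1
  rw [Real.log_mul hBp.ne' (by positivity), Real.log_pow, Real.log_mul (by positivity)
    (by positivity), Real.log_pow] at h2
  have hm : (m0 : ℝ) ≤ (k * Real.log 3 + Real.log (2 ^ n / #B)) / Real.log (19 / 10) := by
    rw [le_div_iff₀ hlog, Real.log_div (by positivity) hBp.ne']
    linarith
  obtain ⟨W, hW, hWs⟩ := space2 β (fun i => cv β u i) (fun i => by unfold cv; omega)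
  refine ⟨W.map (T.symm : V n →ₗ[ZMod 2] V n), ?_, ?_⟩
  · rw [LinearEquiv.finrank_map_eq, ← hBc]
    have h5 : (n : ℝ) ≤ finrank (ZMod 2) W + (m0 + k) := by exact_mod_cast hW
    linarith
  · intro w hw
    obtain ⟨z, hz, rfl⟩ := Submodule.mem_map.1 hw
    obtain ⟨hev, hle⟩ := hWs z hz
    obtain ⟨l, hl, hla, hls⟩ := many β u 5 z hev (fun i => by
      have e1 := hle i
      simp only [cv] at e1
      have e2 : min (blk β i).card (10 * mu β u i) ≤ 10 * mu β u i := min_le_right _ _
      have e3 : min (blk β i).card (10 * mu β u i) ≤ (blk β i).card := min_le_left _ _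
      omega)
    obtain ⟨b, hb, hbs⟩ := list_to_fin 10 l hl
    have hx : ∀ i, ∃ x ∈ A, T x + s = b i := fun i =>
      mem_image.1 (hBs u hu (b i) (hla (b i) (hb i)))
    choose x hxA hxb using hx
    refine ⟨x, hxA, ?_⟩
    apply T.injective
    change T (∑ i, x i) = T (T.symm z)
    rw [LinearEquiv.apply_symm_apply, map_sum]
    have h6 : ∀ i, T (x i) = s + b i := by
      intro i
      rw [← hxb i, add_comm (T (x i)) s, ← add_assoc, vadd_self, zero_add]
    rw [sum_congr rfl (fun i _ => h6 i), sum_add_distrib, hbs, hls, sum_const, card_univ,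
      Fintype.card_fin]
    have h7 : (10 : ℕ) • s = 0 := by
      have : (10 : ℕ) • s = (5 : ℕ) • (s + s) := by
        rw [smul_add, ← add_nsmul]
      rw [this, vadd_self, smul_zero]
    rw [h7, zero_add]

end Pool.Agent.Results.MP_9c415a_co.BlockSymmetricH55
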