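import Pool.Agent.E8helper55.UN.Main

/-!
# Large cosets in `r`-fold sumsets of unate (for instance monotone) sets

A set `B ⊆ F_2^n` is unate if, for some basis of the dual space and some vector `s`, it is closed
under replacing coordinates by those of `s`: for instance up-sets, down-sets and half spaces of
`{0,1}^n`, and all images of such sets under affine bijections. If `A` contains a unate set of
density `β`, then `3 A` contains a coset of a subspace of codimension at most `(3/2) log_2 (1/β)`, and
`10 A` contains a coset of a subspace of codimension at most `1.0035 log_2 (1/β)`. So the bound of Q1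
holds for unate sets, already for three summands, and for ten summands almost with the constant `1`
of the subspaces.

Proof: for down-sets `B_1, ..., B_r` let `m` be the least number of coordinates that vanish at all of
`b_1, ..., b_r`, over all `b_i ∈ B_i`. If `((1 + x) / 2)^r ≤ x` on `[g, 1]`, then
`(1/g)^m μ(B_1) ... μ(B_r) ≤ 1`, by induction on `n`. The sum of the `B_i` contains all vectors which
vanish at these `m` coordinates.
-/

set_option autoImplicit false

namespace Pool.Agent.Results.MP_9c415a_co.UnateSetsH55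

open Finset Module

/-- `F_2^n` -/
abbrev V (n : ℕ) := Fin n → ZMod 2

/-- For some basis of the dual space (the coordinates of `T x`) and some vector `s`, the set `B` is
closed under replacing coordinates by those of `s`. -/
def Unate {n : ℕ} (B : Finset (V n)) : Prop :=
  ∃ (T : V n ≃ₗ[ZMod 2] V n) (s : V n),
    ∀ x ∈ B, ∀ y, (∀ i, T y i = T x i ∨ T y i = s i) → y ∈ B

/-- the set `r A` of the sums of `r` elements of `A` -/
def foldSum {n : ℕ} (r : ℕ) (A : Finset (V n)) : Set (V n) :=
  {x | ∃ a : Fin r → V n, (∀ i, a i ∈ A) ∧ ∑ i, a i = x}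

/-- `X` contains a coset of a subspace of dimension at least `n - c`. -/
def ContainsCoset {n : ℕ} (c : ℝ) (X : Set (V n)) : Prop :=
  ∃ (v : V n) (W : Submodule (ZMod 2) (V n)), (n : ℝ) - c ≤ finrank (ZMod 2) W ∧
    ∀ w ∈ W, v + w ∈ X

lemma ContainsCoset.mono {n : ℕ} {c c' : ℝ} {X : Set (V n)} (h : c ≤ c') (hX : ContainsCoset c X) :
    ContainsCoset c' X := by
  obtain ⟨v, W, h1, h2⟩ := hX
  exact ⟨v, W, by linarith, h2⟩

lemma general {n : ℕ} (A B : Finset (V n)) (hB : B.Nonempty) (hU : Unate B) (hBA : B ⊆ A)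
    (r : ℕ) (g : ℝ) (h0 : 0 < g) (h1 : g < 1) (h : ((1 + g) / 2) ^ r ≤ g) :
    ContainsCoset (r * Real.log (2 ^ n / #B) / Real.log (1 / g)) (foldSum r A) := by
  have hr : 0 < r := by
    rcases Nat.eq_zero_or_pos r with h2 | h2
    · subst h2
      rw [pow_zero] at h
      linarith
    · exact h2
  have ht : 1 < 1 / g := by rw [lt_div_iff₀ h0]; linarith
  have hlt : 0 < Real.log (1 / g) := Real.log_pos ht
  obtain ⟨m, v, W, hW, _, hm, hs⟩ := Pool.Agent.E8helper55.UN.main r hr (1 / g) 1 ht.le one_pos
    (Pool.Agent.E8helper55.UN.cond_one r g h0 h1 h) B hB hU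
  have hBp : (0 : ℝ) < #B := by exact_mod_cast card_pos.2 hB
  refine ⟨v, W, ?_, fun w hw => ?_⟩
  · have h2 : (1 / g) ^ m ≤ ((2 : ℝ) ^ n / #B) ^ r := by
      rw [div_pow ((2 : ℝ) ^ n) _ r, le_div_iff₀ (by positivity)]
      rwa [one_pow, one_mul] at hm
    have h3 := Real.log_le_log (by positivity) h2
    rw [Real.log_pow, Real.log_pow] at h3
    have h4 : (m : ℝ) ≤ r * Real.log (2 ^ n / #B) / Real.log (1 / g) := by
      rw [le_div_iff₀ hlt]; exact h3
    have h5 : (n : ℝ) ≤ finrank (ZMod 2) W + m := by exact_mod_cast hW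
    linarith
  · obtain ⟨a, ha, hsum⟩ := hs w hw
    exact ⟨a, fun i => hBA (ha i), hsum⟩

/-- Let `A ⊆ F_2^n` contain a nonempty unate set `B` (for instance `A = B`). If `0 < g < 1` and
`((1 + g) / 2)^r ≤ g`, then `r A` contains a coset of a subspace of codimension at most
`r log (2^n / |B|) / log (1 / g)`. In particular `3 A` contains a coset of a subspace of codimension
at most `(3/2) log_2 (2^n / |B|)`, and `10 A` contains a coset of a subspace of codimension at most
`1.0035 log_2 (2^n / |B|)`. -/
theorem result {n : ℕ} (A B : Finset (V n)) (hB : B.Nonempty) (hU : Unate B) (hBA : B ⊆ A) :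
    (∀ (r : ℕ) (g : ℝ), 0 < g → g < 1 → ((1 + g) / 2) ^ r ≤ g →
      ContainsCoset (r * Real.log (2 ^ n / #B) / Real.log (1 / g)) (foldSum r A)) ∧
    ContainsCoset (3 / 2 * Real.logb 2 (2 ^ n / #B)) (foldSum 3 A) ∧
    ContainsCoset (1.0035 * Real.logb 2 (2 ^ n / #B)) (foldSum 10 A) := by
  have hBp : (0 : ℝ) < #B := by exact_mod_cast card_pos.2 hB
  have hle : (1 : ℝ) ≤ 2 ^ n / #B := by
    rw [one_le_div hBp]
    have h1 : #B ≤ 2 ^ n := by
      have := card_le_univ B
      rwa [Fintype.card_fun, ZMod.card, Fintype.card_fin] at this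
    exact_mod_cast h1
  have hL : 0 ≤ Real.log ((2 : ℝ) ^ n / #B) := Real.log_nonneg hle
  have hlog2 : 0 < Real.log 2 := Real.log_pos (by norm_num)
  refine ⟨general A B hB hU hBA, ?_, ?_⟩
  · refine (general A B hB hU hBA 3 (1 / 4) (by norm_num) (by norm_num) (by norm_num)).mono
      (le_of_eq ?_)
    have h4 : Real.log (1 / (1 / 4)) = 2 * Real.log 2 := by
      rw [show (1 : ℝ) / (1 / 4) = 2 ^ 2 by norm_num, Real.log_pow]
      norm_num
    rw [h4]
    unfold Real.logb
    push_cast
    field_simp
  · refine (general A B hB hU hBA 10 (1 / 1000) (by norm_num) (by norm_num) (by norm_num)).mono ?_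
    have h4 : 10 * Real.log 2 - 0.024 ≤ Real.log (1 / (1 / 1000)) := by
      have h5 : Real.log (1 / (1 / 1000)) = 10 * Real.log 2 - Real.log 1.024 := by
        have h6 : (1 : ℝ) / (1 / 1000) = 2 ^ 10 / 1.024 := by norm_num
        rw [h6, Real.log_div (by norm_num) (by norm_num), Real.log_pow]
        norm_num
      rw [h5]
      have h6 := Real.log_le_sub_one_of_pos (show (0 : ℝ) < 1.024 by norm_num)
      linarith
    have h2 := Real.log_two_gt_d9
    have h5 : 0 < Real.log (1 / (1 / 1000)) := by linarith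
    unfold Real.logb
    rw [← mul_div_assoc, div_le_div_iff₀ h5 hlog2]
    have h6 : (10 : ℝ) * Real.log 2 ≤ 1.0035 * Real.log (1 / (1 / 1000)) := by linarith
    have h7 := mul_le_mul_of_nonneg_left h6 hL
    push_cast
    linarith

end Pool.Agent.Results.MP_9c415a_co.UnateSetsH55
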